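import Pool.Agent.Helper99.AA.Basic

/-!
# AA, module LR: the Dirichlet series of the rough numbers at real points
-/

set_option autoImplicit false

open Finset MeasureTheory
open scoped BigOperators

namespace Pool.Agent.Helper99.AA

open Pool.Agent.Helper40.MR

theorem st_LR (hRS : ST_RS) : ST_LR := by
  obtain ⟨C, hC, hR⟩ := hRS
  refine ⟨2 * (1 + C), by positivity, fun y η hy hη hη1 => ?_⟩
  have hy1 : (1 : ℝ) < y := by exact_mod_cast (by omega : 1 < y)
  have hlog : 0 < Real.log y := Real.log_pos hy1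
  obtain ⟨s, hs⟩ : ∃ s : ℂ, s = ((1 + η : ℝ) : ℂ) + ((0 : ℝ) : ℂ) * Complex.I := ⟨_, rfl⟩
  have hsre : s.re = 1 + η := by rw [hs]; simp
  have hs' : s = ((1 + η : ℝ) : ℂ) := by rw [hs]; simp
  have hsn : ‖s‖ ≤ 2 := by
    rw [hs', Complex.norm_real, Real.norm_of_nonneg (by linarith)]
    linarith
  have h1 : Gv (ro y) η 0 = s * ∫ t in Set.Ioi (1 : ℝ), (∑ k ∈ Icc 1 ⌊t⌋₊, ro y k) *
      (t : ℂ) ^ (-(s + 1)) := by
    unfold Gv
    rw [← hs]
    refine LSeries_eq_mul_integral' (ro y) zero_le_one (by rw [hsre]; linarith) ?_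
    refine Asymptotics.isBigO_of_le _ fun n => ?_
    rw [Real.rpow_one, Real.norm_of_nonneg (sum_nonneg fun _ _ => norm_nonneg _)]
    refine (sum_le_card_nsmul _ _ 1 fun k _ => norm_ro_le y k).trans ?_
    rw [Nat.card_Icc]
    simp
  have hint1 : IntegrableOn (fun t : ℝ => t ^ (-2 : ℝ)) (Set.Ioi 1) :=
    integrableOn_Ioi_rpow_of_lt (by norm_num) zero_lt_one
  have hint2 : IntegrableOn (fun t : ℝ => t ^ (-1 - η)) (Set.Ioi 1) :=
    integrableOn_Ioi_rpow_of_lt (by linarith) zero_lt_one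
  have hint : IntegrableOn (fun t : ℝ => t ^ (-2 : ℝ) + C / Real.log y * t ^ (-1 - η))
      (Set.Ioi 1) := hint1.add (hint2.const_mul _)
  have hval : ∫ t in Set.Ioi (1 : ℝ), (t ^ (-2 : ℝ) + C / Real.log y * t ^ (-1 - η)) =
      1 + C / Real.log y * (1 / η) := by
    rw [integral_add hint1 (hint2.const_mul _), integral_const_mul,
      integral_Ioi_rpow_of_lt (by norm_num) zero_lt_one,
      integral_Ioi_rpow_of_lt (by linarith) zero_lt_one, Real.one_rpow, Real.one_rpow]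
    have e1 : -1 - η + 1 = -η := by ring
    rw [e1]
    norm_num
  have hb : ‖∫ t in Set.Ioi (1 : ℝ), (∑ k ∈ Icc 1 ⌊t⌋₊, ro y k) * (t : ℂ) ^ (-(s + 1))‖ ≤
      1 + C / Real.log y * (1 / η) := by
    rw [← hval]
    refine norm_integral_le_of_norm_le hint ?_
    refine (ae_restrict_iff' measurableSet_Ioi).2 (Filter.Eventually.of_forall fun t ht => ?_)
    have ht1 : (1 : ℝ) < t := ht
    have ht0 : 0 < t := by linarith
    have hre : (-(s + 1)).re = -2 - η := by
      rw [Complex.neg_re, Complex.add_re, hsre, Complex.one_re]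
      ring
    rw [norm_mul, Complex.norm_cpow_eq_rpow_re_of_pos ht0, hre]
    have hp : 0 < t ^ (-2 - η) := Real.rpow_pos_of_pos ht0 _
    have hp1 : 0 < t ^ (-1 - η) := Real.rpow_pos_of_pos ht0 _
    have hp2 : 0 < t ^ (-2 : ℝ) := Real.rpow_pos_of_pos ht0 _
    have hCl : 0 ≤ C / Real.log y := by positivity
    by_cases hty : t < y
    · have h2 := Ph_zero_small hy 0 ht1.le (by linarith : t < (y : ℝ) + 1)
      unfold Ph Sg at h2
      have h3 : ∑ k ∈ Icc 1 ⌊t⌋₊, ro y k = 1 := by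
        rw [← h2]
        refine sum_congr rfl fun n _ => ?_
        show ro y n = (Real.log n : ℂ) ^ 0 * rt y 0 n
        rw [pow_zero, one_mul, rt_zero_t]
      rw [h3, norm_one, one_mul]
      have h4 : t ^ (-2 - η) ≤ t ^ (-2 : ℝ) :=
        Real.rpow_le_rpow_of_exponent_le ht1.le (by linarith)
      have h5 : 0 ≤ C / Real.log y * t ^ (-1 - η) := mul_nonneg hCl hp1.le
      linarith
    · have h2 := hR y t hy (not_lt.1 hty)
      have h3 : ‖∑ k ∈ Icc 1 ⌊t⌋₊, ro y k‖ ≤ C * (t / Real.log y) := (norm_sum_le _ _).trans h2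
      have h4 : t * t ^ (-2 - η) = t ^ (-1 - η) := by
        have h5 := Real.rpow_add ht0 1 (-2 - η)
        rw [Real.rpow_one] at h5
        rw [← h5]
        congr 1
        ring
      calc ‖∑ k ∈ Icc 1 ⌊t⌋₊, ro y k‖ * t ^ (-2 - η) ≤ C * (t / Real.log y) * t ^ (-2 - η) :=
            mul_le_mul_of_nonneg_right h3 hp.le
        _ = C / Real.log y * (t * t ^ (-2 - η)) := by ring
        _ = C / Real.log y * t ^ (-1 - η) := by rw [h4]
        _ ≤ _ := by linarith
  rw [h1, norm_mul]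
  calc ‖s‖ * ‖∫ t in Set.Ioi (1 : ℝ), (∑ k ∈ Icc 1 ⌊t⌋₊, ro y k) * (t : ℂ) ^ (-(s + 1))‖
      ≤ 2 * (1 + C / Real.log y * (1 / η)) :=
        mul_le_mul hsn hb (norm_nonneg _) (by norm_num)
    _ = 2 * (1 + C * (1 / (η * Real.log y))) := by
        field_simp
    _ ≤ 2 * (1 + C) * (1 + 1 / (η * Real.log y)) := by
        have h2 : 0 < 1 / (η * Real.log y) := by positivity
        nlinarith

end Pool.Agent.Helper99.AA
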