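import Pool.Agent.Helper99.AA.Stmts
import Pool.Agent.Helper18.MR.BT

/-!
# AA, module RS: upper bound for the number of rough numbers
-/

set_option autoImplicit false

open Finset
open scoped BigOperators

namespace Pool.Agent.Helper99.AA

open Pool.Agent.Helper40.MR

open Classical in
/-- number of rough numbers -/
theorem rs_count (hS : ST_SEL) (D : ℝ) (b y : ℕ) (hD : 2 ≤ D) (hDa : D ≤ y) :
    (((Ioc 0 b).filter (fun n => Ro y n)).card : ℝ) ≤ (b : ℝ) / Real.log D + D ^ 2 := by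
  obtain ⟨ρ, h1, h0, hb, hz, hq0, hq⟩ := hS D hD
  obtain ⟨m, hm⟩ : ∃ m, m = ⌊D⌋₊ := ⟨_, rfl⟩
  rw [← hm] at hq0 hq
  have hm1 : 1 ≤ m := by
    rw [hm]
    exact Nat.le_floor (by push_cast; linarith)
  have hmD : (m : ℝ) ≤ D := by
    rw [hm]
    exact Nat.floor_le (by linarith)
  have hmy : m ≤ y := by
    have h : (m : ℝ) ≤ y := hmD.trans hDa
    exact_mod_cast h
  let F : ℕ → ℝ := fun n => ∑ d ∈ Icc 1 m, if d ∣ n then ρ d else 0
  have hrough : ∀ p ∈ (Ioc 0 b).filter (fun n => Ro y n), (1 : ℝ) ≤ F p ^ 2 := by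
    intro p hp
    obtain ⟨hp1, hp2⟩ := mem_filter.1 hp
    have h2 : F p = 1 := by
      show (∑ d ∈ Icc 1 m, if d ∣ p then ρ d else 0) = 1
      rw [Finset.sum_eq_single 1]
      · rw [if_pos (one_dvd p), h1]
      · intro d hd hd1
        rw [if_neg]
        intro hdp
        have h3 := Nat.minFac_prime hd1
        have h4 := hp2 _ h3 ((Nat.minFac_dvd d).trans hdp)
        have h5 := Nat.minFac_le (n := d) (mem_Icc.1 hd).1
        have h6 := (mem_Icc.1 hd).2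
        omega
      · intro h
        exact absurd (mem_Icc.2 ⟨le_rfl, hm1⟩) h
    rw [h2]
    norm_num
  have step1 : (((Ioc 0 b).filter (fun n => Ro y n)).card : ℝ) ≤ ∑ n ∈ Ioc 0 b, F n ^ 2 := by
    calc (((Ioc 0 b).filter (fun n => Ro y n)).card : ℝ) =
          ∑ p ∈ (Ioc 0 b).filter (fun n => Ro y n), (1 : ℝ) := by
          simp
      _ ≤ ∑ p ∈ (Ioc 0 b).filter (fun n => Ro y n), F p ^ 2 := sum_le_sum hrough
      _ ≤ _ := sum_le_sum_of_subset_of_nonneg (filter_subset _ _) fun _ _ _ => sq_nonneg _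
  have step2 : ∑ n ∈ Ioc 0 b, F n ^ 2 = ∑ d ∈ Icc 1 m, ∑ e ∈ Icc 1 m, ρ d * ρ e *
      (((Ioc 0 b).filter (fun n => Nat.lcm d e ∣ n)).card : ℝ) := by
    have e1 : ∀ n ∈ Ioc 0 b, F n ^ 2 = ∑ d ∈ Icc 1 m, ∑ e ∈ Icc 1 m,
        if Nat.lcm d e ∣ n then ρ d * ρ e else 0 := by
      intro n _
      show (∑ d ∈ Icc 1 m, if d ∣ n then ρ d else 0) ^ 2 = _
      rw [pow_two, sum_mul_sum]
      refine sum_congr rfl fun d _ => sum_congr rfl fun e _ => ?_
      by_cases h2 : d ∣ n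
      · by_cases h3 : e ∣ n
        · rw [if_pos h2, if_pos h3, if_pos (Nat.lcm_dvd h2 h3)]
        · rw [if_neg h3, mul_zero, if_neg (fun h => h3 ((Nat.dvd_lcm_right d e).trans h))]
      · rw [if_neg h2, zero_mul, if_neg (fun h => h2 ((Nat.dvd_lcm_left d e).trans h))]
    rw [sum_congr rfl e1, sum_comm]
    refine sum_congr rfl fun d _ => ?_
    rw [sum_comm]
    refine sum_congr rfl fun e _ => ?_
    rw [← sum_filter, sum_const, nsmul_eq_mul, mul_comm]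
  have step3 : ∑ d ∈ Icc 1 m, ∑ e ∈ Icc 1 m, ρ d * ρ e *
      (((Ioc 0 b).filter (fun n => Nat.lcm d e ∣ n)).card : ℝ) ≤
      (b : ℝ) * (∑ d ∈ Icc 1 m, ∑ e ∈ Icc 1 m, ρ d * ρ e / (Nat.lcm d e : ℝ)) + (m : ℝ) ^ 2 := by
    have e1 : ∀ d ∈ Icc 1 m, ∀ e ∈ Icc 1 m, ρ d * ρ e *
        (((Ioc 0 b).filter (fun n => Nat.lcm d e ∣ n)).card : ℝ) ≤
        (b : ℝ) * (ρ d * ρ e / (Nat.lcm d e : ℝ)) + 1 := by
      intro d hd e he
      have hl : 0 < Nat.lcm d e := Nat.lcm_pos (mem_Icc.1 hd).1 (mem_Icc.1 he).1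
      have h2 := bt_mult 0 b (Nat.lcm d e) (Nat.zero_le b) hl
      rw [Nat.cast_zero, sub_zero] at h2
      have h3 : |ρ d * ρ e| ≤ 1 := by
        rw [abs_mul]
        exact mul_le_one₀ (hb d) (abs_nonneg _) (hb e)
      have h4 : ρ d * ρ e * ((((Ioc 0 b).filter (fun n => Nat.lcm d e ∣ n)).card : ℝ) -
          (b : ℝ) / (Nat.lcm d e : ℝ)) ≤ 1 := by
        refine (le_abs_self _).trans ?_
        rw [abs_mul]
        exact mul_le_one₀ h3 (abs_nonneg _) h2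
      have h5 : (b : ℝ) * (ρ d * ρ e / (Nat.lcm d e : ℝ)) =
          ρ d * ρ e * ((b : ℝ) / (Nat.lcm d e : ℝ)) := by ring
      rw [h5]
      linarith [h4]
    calc _ ≤ ∑ d ∈ Icc 1 m, ∑ e ∈ Icc 1 m,
          ((b : ℝ) * (ρ d * ρ e / (Nat.lcm d e : ℝ)) + 1) :=
          sum_le_sum fun d hd => sum_le_sum fun e he => e1 d hd e he
      _ = _ := by
          simp only [sum_add_distrib, ← mul_sum, sum_const, Nat.card_Icc, nsmul_eq_mul]
          simp
          ring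
  have hba : (0 : ℝ) ≤ (b : ℝ) := Nat.cast_nonneg b
  calc (((Ioc 0 b).filter (fun n => Ro y n)).card : ℝ) ≤ _ := step1
    _ = _ := step2
    _ ≤ _ := step3
    _ ≤ (b : ℝ) * (1 / Real.log D) + D ^ 2 := by
        have h2 := mul_le_mul_of_nonneg_left hq hba
        have h3 : (m : ℝ) ^ 2 ≤ D ^ 2 := pow_le_pow_left₀ (Nat.cast_nonneg m) hmD 2
        linarith
    _ = _ := by rw [mul_one_div]

theorem st_RS (hS : ST_SEL) : ST_RS := by
  classical
  refine ⟨6, by norm_num, fun y N hy hyN => ?_⟩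
  have hy1 : (1 : ℝ) < y := by exact_mod_cast (by omega : 1 < y)
  have hy0 : (0 : ℝ) < y := by linarith
  have hlog : 0 < Real.log y := Real.log_pos hy1
  have hN0 : 0 ≤ N := by linarith
  have hfl : (⌊N⌋₊ : ℝ) ≤ N := Nat.floor_le hN0
  have hro : ∀ n, ‖ro y n‖ = if Ro y n then 1 else 0 := by
    intro n
    unfold ro
    split_ifs <;> simp
  have hsum : ∑ n ∈ Icc 1 ⌊N⌋₊, ‖ro y n‖ =
      (((Ioc 0 ⌊N⌋₊).filter (fun n => Ro y n)).card : ℝ) := by
    rw [sum_congr rfl fun n _ => hro n, sum_boole]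
    rfl
  rw [hsum]
  rcases Nat.lt_or_ge y 8 with h8 | h8
  · have h1 : Real.log y ≤ 6 := by
      have h2 := Real.log_le_sub_one_of_pos hy0
      have h3 : (y : ℝ) ≤ 7 := by exact_mod_cast (by omega : y ≤ 7)
      linarith
    have h2 : (((Ioc 0 ⌊N⌋₊).filter (fun n => Ro y n)).card : ℝ) ≤ N := by
      refine le_trans ?_ hfl
      have h3 := card_filter_le (Ioc 0 ⌊N⌋₊) (fun n => Ro y n)
      rw [Nat.card_Ioc] at h3
      exact_mod_cast h3
    refine h2.trans ?_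
    rw [mul_div_assoc', le_div_iff₀ hlog]
    nlinarith
  · obtain ⟨D, hD⟩ : ∃ D : ℝ, D = (y : ℝ) ^ ((1 : ℝ) / 3) := ⟨_, rfl⟩
    have h8' : (8 : ℝ) ≤ y := by exact_mod_cast h8
    have hD2 : 2 ≤ D := by
      have h1 : (8 : ℝ) ^ ((1 : ℝ) / 3) = 2 := by
        rw [show (8 : ℝ) = 2 ^ (3 : ℝ) by norm_num, ← Real.rpow_mul (by norm_num)]
        norm_num
      rw [hD, ← h1]
      exact Real.rpow_le_rpow (by norm_num) h8' (by norm_num)
    have hDy : D ≤ y := by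
      rw [hD]
      calc (y : ℝ) ^ ((1 : ℝ) / 3) ≤ (y : ℝ) ^ (1 : ℝ) :=
            Real.rpow_le_rpow_of_exponent_le hy1.le (by norm_num)
        _ = y := Real.rpow_one _
    have h1 := rs_count hS D ⌊N⌋₊ y hD2 hDy
    have hlD : Real.log D = Real.log y / 3 := by
      rw [hD, Real.log_rpow hy0]
      ring
    have h2 : (⌊N⌋₊ : ℝ) / Real.log D ≤ 3 * (N / Real.log y) := by
      rw [hlD, div_div_eq_mul_div, mul_comm, ← mul_div_assoc]
      exact div_le_div_of_nonneg_right (by linarith) hlog.le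
    have h3 : D ^ 2 ≤ 3 * (N / Real.log y) := by
      have h4 := Real.log_le_rpow_div hy0.le (by norm_num : (0 : ℝ) < 1 / 3)
      have h5 : D ^ 2 * (y : ℝ) ^ ((1 : ℝ) / 3) = y := by
        rw [hD, ← Real.rpow_natCast, ← Real.rpow_mul hy0.le, ← Real.rpow_add hy0]
        norm_num
      rw [mul_div_assoc', le_div_iff₀ hlog]
      calc D ^ 2 * Real.log y ≤ D ^ 2 * ((y : ℝ) ^ ((1 : ℝ) / 3) / (1 / 3)) :=
            mul_le_mul_of_nonneg_left h4 (sq_nonneg _)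
        _ = 3 * (D ^ 2 * (y : ℝ) ^ ((1 : ℝ) / 3)) := by ring
        _ = 3 * y := by rw [h5]
        _ ≤ 3 * N := by linarith
    linarith

end Pool.Agent.Helper99.AA
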